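import Pool.Agent.V5helper79.PC.Half

/-!
# Commuting elements which shift chains of half-spaces
-/

set_option autoImplicit false

namespace Pool.Agent.V5helper79.PC

open Function Set
open scoped Pointwise

/-- two commuting elements which shift a chain -/
theorem chain0 {S : Type*} {G : Type*} [Group G] [MulAction G S] {z t : G} (hc : Commute z t)
    (U : ℤ → S) {w v : ℤ} (hw : 0 < w) (hfree : ∀ k : ℕ, 0 < k → z ^ k • U 0 ≠ U 0)
    (hz : ∀ s, |s| ≤ w + |v| → z • U s = U (s + w))
    (ht : ∀ s, 0 ≤ s → s < w → t • U s = U (s + v)) {l m : ℤ}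
    (h : z ^ l * t ^ m = 1) : l * w + m * v = 0 := by
  -- the chain, extended by the powers of `z`
  obtain ⟨T, hT⟩ : ∃ T : ℤ → S, T = fun j => z ^ (j / w) • U (j % w) := ⟨_, rfl⟩
  have hT' : ∀ j, T j = z ^ (j / w) • U (j % w) := fun j => by rw [hT]
  have T1 : ∀ j, z • T j = T (j + w) := by
    intro j
    rw [hT', hT', Int.add_emod_right, Int.add_ediv_of_dvd_right (dvd_refl w),
      Int.ediv_self hw.ne', zpow_add, zpow_one, ← mul_smul]
    congr 1
    exact (Commute.refl z).zpow_right _ |>.eq
  have T1z : ∀ (i : ℤ) j, z ^ i • T j = T (j + i * w) := by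
    intro i j
    rw [hT', hT', Int.add_mul_emod_self_right, Int.add_mul_ediv_right _ _ hw.ne', ← mul_smul,
      ← zpow_add, add_comm i]
  have U0 : ∀ k : ℕ, ∀ s, 0 ≤ s → s < w + k → s ≤ w + |v| + w → U s = T s := by
    intro k
    induction k with
    | zero =>
      intro s h0 h1 _
      rw [hT', Int.ediv_eq_zero_of_lt h0 (by push_cast at h1; omega),
        Int.emod_eq_of_lt h0 (by push_cast at h1; omega), zpow_zero, one_smul]
    | succ k ih =>
      intro s h0 h1 h2
      rcases lt_or_ge s w with h3 | h3
      · exact ih s h0 (by omega) h2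
      · have := ih (s - w) (by omega) (by push_cast at h1 ⊢; omega) (by omega)
        have e := hz (s - w) (by rw [abs_le]; constructor <;> omega)
        rw [sub_add_cancel] at e
        rw [← e, this, T1, sub_add_cancel]
  have U1 : ∀ s, 0 ≤ s → s ≤ w + |v| + w → U s = T s := fun s h0 h2 =>
    U0 s.toNat s h0 (by omega) h2
  have U2 : ∀ k : ℕ, ∀ s, -(k : ℤ) ≤ s → s < w → -(w + |v|) ≤ s → U s = T s := by
    intro k
    induction k with
    | zero => intro s h0 h1 _; exact U1 s (by simpa using h0) (by have := abs_nonneg v; omega)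
    | succ k ih =>
      intro s h0 h1 h2
      rcases le_or_gt 0 s with h3 | h3
      · exact U1 s h3 (by have := abs_nonneg v; omega)
      · have := ih (s + w) (by push_cast at h0; omega) (by omega) (by omega)
        have e := hz s (by rw [abs_le]; have := abs_nonneg v; constructor <;> omega)
        rw [this, ← T1] at e
        exact smul_left_cancel _ e
  have U3 : ∀ s, |s| ≤ w + |v| → U s = T s := by
    intro s hs
    rw [abs_le] at hs
    rcases lt_or_ge s w with h3 | h3
    · exact U2 s.natAbs s (by omega) h3 hs.1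
    · exact U1 s (by omega) (by omega)
  have T2 : ∀ j, t • T j = T (j + v) := by
    intro j
    have h1 := Int.emod_nonneg j hw.ne'
    have h2 := Int.emod_lt_of_pos j hw
    have e1 : j = j % w + (j / w) * w := by rw [mul_comm]; exact (Int.emod_add_mul_ediv j w).symm
    have e2 : T j = z ^ (j / w) • T (j % w) := by
      conv_lhs => rw [e1]
      rw [T1z]
    have e3 : U (j % w) = T (j % w) := U3 _ (by
      rw [abs_of_nonneg h1]
      have := abs_nonneg v
      omega)
    rw [e2, ← mul_smul, ← (hc.zpow_left (j / w)).eq, mul_smul, ← e3, ht _ h1 h2, U3 (j % w + v) ?_,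
      T1z]
    · congr 1
      conv_rhs => rw [e1]
      ring
    · refine (abs_add_le _ _).trans ?_
      rw [abs_of_nonneg h1]
      omega
  have T2n : ∀ (i : ℕ) j, t ^ i • T j = T (j + i * v) := by
    intro i
    induction i with
    | zero => intro j; simp
    | succ i ih =>
      intro j
      rw [pow_succ, mul_smul, T2, ih]
      congr 1
      push_cast
      ring
  have T2z : ∀ (i : ℤ) j, t ^ i • T j = T (j + i * v) := by
    intro i j
    rcases Int.eq_nat_or_neg i with ⟨k, rfl | rfl⟩
    · rw [zpow_natCast]; exact T2n k j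
    · rw [zpow_neg, zpow_natCast, inv_smul_eq_iff, T2n]
      congr 1
      ring
  have per : ∀ j, T (j + (l * w + m * v)) = T j := by
    intro j
    have h1 : (z ^ l * t ^ m) • T j = T j := by rw [h, one_smul]
    rw [mul_smul, T2z, T1z] at h1
    rw [← h1]
    congr 1
    ring
  have pern : ∀ (i : ℕ) j, T (j + i * (l * w + m * v)) = T j := by
    intro i
    induction i with
    | zero => intro j; simp
    | succ i ih =>
      intro j
      rw [← ih j, ← per (j + i * (l * w + m * v))]
      congr 1
      push_cast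
      ring
  have e0 : T 0 = U 0 := (U3 0 (by rw [abs_zero]; have := abs_nonneg v; omega)).symm
  have key : z ^ (l * w + m * v) • U 0 = U 0 := by
    rw [← e0, T1z, zero_add]
    have h1 := pern w.toNat 0
    rw [zero_add, show ((w.toNat : ℕ) : ℤ) = w by omega, mul_comm w] at h1
    exact h1
  by_contra hne
  rcases lt_or_gt_of_ne hne with h0 | h0
  · obtain ⟨k, hk⟩ := Int.eq_ofNat_of_zero_le (show 0 ≤ -(l * w + m * v) by omega)
    refine hfree k (by omega) ?_
    rw [show l * w + m * v = -(k : ℤ) by omega, zpow_neg, zpow_natCast, inv_smul_eq_iff] at key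
    exact key.symm
  · obtain ⟨k, hk⟩ := Int.eq_ofNat_of_zero_le (show 0 ≤ l * w + m * v by omega)
    refine hfree k (by omega) ?_
    rw [hk, zpow_natCast] at key
    exact key

theorem chain1 {S : Type*} {G : Type*} [Group G] [MulAction G S] {z t : G} (hc : Commute z t)
    (U : ℤ → S) {w v : ℤ} (hw : w ≠ 0) (hfree : ∀ k : ℕ, 0 < k → z ^ k • U 0 ≠ U 0)
    (hz : ∀ s, |s| ≤ |w| + |v| → z • U s = U (s + w))
    (ht : ∀ s, |s| ≤ |w| → t • U s = U (s + v)) {l m : ℤ}
    (h : z ^ l * t ^ m = 1) : l * w + m * v = 0 := by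
  rcases lt_or_gt_of_ne hw with h0 | h0
  · have := chain0 hc (fun s => U (-s)) (w := -w) (v := -v) (by omega)
      (fun k hk => by rw [neg_zero]; exact hfree k hk)
      (fun s hs => by
        rw [hz (-s) (by rw [abs_neg, abs_of_neg h0]; rwa [abs_neg] at hs)]
        congr 1
        ring)
      (fun s h1 h2 => by
        rw [ht (-s) (by rw [abs_neg, abs_of_neg h0, abs_of_nonneg h1]; omega)]
        congr 1
        ring) h
    linarith
  · exact chain0 hc U h0 hfree
      (fun s hs => hz s (by rwa [abs_of_pos h0]))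
      (fun s h1 h2 => ht s (by rw [abs_of_pos h0, abs_of_nonneg h1]; omega)) h

/-- the case in which the first element does not move the chain -/
theorem chain2 {S : Type*} {G : Type*} [Group G] [MulAction G S] {z t : G} {U : S}
    (hfree : ∀ k : ℕ, 0 < k → t ^ k • U ≠ U) (hz : z • U = U) {l m : ℤ}
    (h : z ^ l * t ^ m = 1) : m = 0 := by
  have hzn : ∀ k : ℕ, z ^ k • U = U := by
    intro k
    induction k with
    | zero => simp
    | succ k ih => rw [pow_succ, mul_smul, hz, ih]
  have hzz : ∀ k : ℤ, z ^ k • U = U := by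
    intro k
    rcases Int.eq_nat_or_neg k with ⟨i, rfl | rfl⟩
    · rw [zpow_natCast]; exact hzn i
    · rw [zpow_neg, zpow_natCast, inv_smul_eq_iff, hzn]
  have hfix : t ^ m • U = U := by
    have h1 : (z ^ l * t ^ m) • U = U := by rw [h, one_smul]
    rw [mul_smul] at h1
    have h2 := hzz l
    exact smul_left_cancel _ (h1.trans h2.symm)
  by_contra hne
  rcases lt_or_gt_of_ne hne with h0 | h0
  · obtain ⟨k, hk⟩ := Int.eq_ofNat_of_zero_le (show 0 ≤ -m by omega)
    refine hfree k (by omega) ?_
    rw [show m = -(k : ℤ) by omega, zpow_neg, zpow_natCast, inv_smul_eq_iff] at hfix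
    exact hfix.symm
  · obtain ⟨k, hk⟩ := Int.eq_ofNat_of_zero_le (show 0 ≤ m by omega)
    refine hfree k (by omega) ?_
    rwa [hk, zpow_natCast] at hfix

/-- an element which moves a set into itself or over itself -/
theorem free_of_nest {V : Type*} {G : Type*} [Group G] [MulAction G V] {g : G} {S : Set V}
    (h : g • S ⊂ S ∨ S ⊂ g • S) {k : ℕ} (hk : 0 < k) : g ^ k • S ≠ S := by
  have hR : ∀ (g : G) (a b : Set V), a ⊂ b → g • a ⊂ g • b := by
    intro g a b hab
    rw [Set.ssubset_def, Set.smul_set_subset_smul_set_iff, Set.smul_set_subset_smul_set_iff]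
    exact hab
  obtain ⟨m, rfl⟩ := Nat.exists_eq_succ_of_ne_zero hk.ne'
  rcases h with h | h
  · have key : ∀ m : ℕ, g ^ (m + 1) • S ⊂ S := by
      intro m
      induction m with
      | zero => simpa using h
      | succ m ih =>
        rw [pow_succ', mul_smul]
        exact (hR g _ _ ih).trans h
    exact (key m).ne
  · have key : ∀ m : ℕ, S ⊂ g ^ (m + 1) • S := by
      intro m
      induction m with
      | zero => simpa using h
      | succ m ih =>
        rw [pow_succ', mul_smul]
        exact h.trans (hR g _ _ ih)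
    exact (key m).ne'

end Pool.Agent.V5helper79.PC
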