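import Pool.Agent.V5helper79.PC.Tube

/-!
# Local periods at every place give `ℤ²`
-/

set_option autoImplicit false

namespace Pool.Agent.V5helper79.PC

open Function Set
open Pool.Agent.N47.SQ hiding Act par
open Pool.Agent.V5helper79.BX hiding par par1

variable {V : Type*} {Γ : SimpleGraph V} {n : ℕ} {G : Type*} [Group G] [MulAction G V]

theorem exists_prim {v0 : Fin n → ℤ} (h0 : v0 ≠ 0) :
    ∃ s : Fin n → ℤ, s ≠ 0 ∧ ∀ v, Par v v0 → ∃ k : ℤ, v = k • s := by
  obtain ⟨α, hα⟩ := Function.ne_iff.1 h0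
  rw [Pi.zero_apply] at hα
  have hA : ∀ v, Par v v0 → v α = 0 → v = 0 := by
    intro v hv h
    funext b
    have := hv α b
    rw [h, zero_mul] at this
    exact (mul_eq_zero.1 this.symm).resolve_right hα
  have hex : ∃ m : ℕ, 0 < m ∧ ∃ v, Par v v0 ∧ (v α).natAbs = m :=
    ⟨(v0 α).natAbs, by omega, v0, fun a b => mul_comm _ _, rfl⟩
  classical
  obtain ⟨hpos, s, hs, hsm⟩ := Nat.find_spec hex
  have hsα : s α ≠ 0 := by omega
  refine ⟨s, fun h => hsα (by rw [h]; rfl), fun v hv => ⟨v α / s α, ?_⟩⟩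
  have hu : Par (v - (v α / s α) • s) v0 := by
    intro a b
    have h1 := hv a b
    have h2 := hs a b
    simp only [Pi.sub_apply, Pi.smul_apply, smul_eq_mul]
    linear_combination h1 - (v α / s α) * h2
  have hα' : (v - (v α / s α) • s) α = v α % s α := by
    simp only [Pi.sub_apply, Pi.smul_apply, smul_eq_mul]
    have := Int.emod_add_mul_ediv (v α) (s α)
    linear_combination -this
  by_contra hne
  have h3 : (v - (v α / s α) • s) α ≠ 0 := fun h => hne (sub_eq_zero.1 (hA _ hu h))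
  have h4 := Int.emod_nonneg (v α) hsα
  have h5 := Int.emod_lt (v α) hsα
  refine Nat.find_min hex (m := ((v - (v α / s α) • s) α).natAbs) ?_ ⟨by omega, _, hu, rfl⟩
  rw [← hsm, hα']
  have : |s α| = ((s α).natAbs : ℤ) := Int.abs_eq_natAbs _
  omega

theorem Par.trans' {u a b : Fin n → ℤ} (hu : u ≠ 0) (h1 : Par u a) (h2 : Par u b) : Par a b := by
  obtain ⟨c, hc⟩ := Function.ne_iff.1 hu
  rw [Pi.zero_apply] at hc
  intro i j
  have a1 := h1 c i
  have a2 := h1 c j
  have b1 := h2 c i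
  have b2 := h2 c j
  have : (u c * u c) * (a i * b j - a j * b i) = 0 := by
    linear_combination (u c * b j) * a1 + (u i * a c) * b2 - (u c * b i) * a2 - (u j * a c) * b1
  rcases mul_eq_zero.1 this with h | h
  · exact absurd h (mul_ne_zero hc hc)
  · exact sub_eq_zero.1 h

theorem conn {P : (Fin n → ℤ) → Prop} (h0 : P 0) (hs : ∀ p i b, P p → P (p + uv i b)) :
    ∀ p, P p := by
  have key : ∀ (N : ℕ) p, ds p 0 = N → P p := by
    intro N
    induction N with
    | zero => intro p hp; rw [eq_of_ds hp]; exact h0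
    | succ N ih =>
      intro p hp
      have hne : p ≠ 0 := fun e => by rw [e, ds_self] at hp; omega
      obtain ⟨i, hi⟩ := Function.ne_iff.1 hne
      rw [Pi.zero_apply] at hi
      obtain ⟨b, hb⟩ : ∃ b : Bool, (p i + if b then 1 else -1).natAbs + 1 = (p i).natAbs := by
        rcases lt_or_gt_of_ne hi with h1 | h1
        · exact ⟨true, by simp only [if_true]; omega⟩
        · exact ⟨false, by simp only [Bool.false_eq_true, if_false]; omega⟩
      have e : p + uv i b = update p i (p i + if b then 1 else -1) := by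
        have := add_uv p i b 1
        rwa [one_smul, one_mul] at this
      have h3 := ds_upd p 0 i (p i + if b then 1 else -1)
      rw [← e, Pi.zero_apply, sub_zero, sub_zero] at h3
      have h4 := hs _ i (!b) (ih (p + uv i b) (by omega))
      have e2 : p + uv i b + uv i (!b) = p := by
        funext k
        by_cases hk : k = i
        · subst hk
          cases b <;> simp [uv]
        · simp only [Pi.add_apply, uv_ne hk]; omega
      rwa [e2] at h4
  exact fun p => key _ p rfl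

theorem uv_le (i : Fin n) (b : Bool) (k : Fin n) : (uv i b k).natAbs ≤ 1 := by
  by_cases hk : k = i
  · subst hk
    rw [uv_self]
    cases b <;> simp
  · rw [uv_ne hk]; simp

/-- repetition of patterns -/
theorem iso_repeat (hA : Act G Γ) {f : (Fin n → ℤ) → V} (hf : Iso Γ f) (p : ℕ → Fin n → ℤ)
    (S : ℕ) : ∃ i j : ℕ, i < j ∧ ∃ g : G, ∀ z ∈ Win n S, g • f (z + p i) = f (z + p j) := by
  obtain ⟨K, hK, hKc⟩ := hA.orb
  choose a ha using fun m => hKc (f (p m))
  have hfin := hA.ballK hK (n * S)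
  have : Finite {z // z ∈ Win n S} := (Pool.Agent.V5helper79.BX.win_finite S).to_subtype
  have : Finite {w | ∃ v ∈ K, Γ.dist v w ≤ n * S} := hfin.to_subtype
  obtain ⟨i, j, hij, he⟩ := Finite.exists_ne_map_eq_of_infinite
    (fun m : ℕ => fun z : {z // z ∈ Win n S} =>
      (⟨a m • f (z.1 + p m), ⟨a m • f (p m), ha m, by
        rw [hA.dist, hf, ds]
        calc ∑ k, (p m k - (z.1 + p m) k).natAbs ≤ ∑ _k : Fin n, S :=
              Finset.sum_le_sum fun k _ => by
                have := z.2 k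
                simp only [Pi.add_apply]
                omega
          _ = n * S := by simp⟩⟩ : {w | ∃ v ∈ K, Γ.dist v w ≤ n * S}))
  have key : ∀ i j : ℕ, i < j → (∀ z ∈ Win n S, a i • f (z + p i) = a j • f (z + p j)) →
      ∃ i j : ℕ, i < j ∧ ∃ g : G, ∀ z ∈ Win n S, g • f (z + p i) = f (z + p j) :=
    fun i j hij h => ⟨i, j, hij, (a j)⁻¹ * a i, fun z hz => by
      rw [mul_smul, h z hz, inv_smul_smul]⟩
  have he' : ∀ z ∈ Win n S, a i • f (z + p i) = a j • f (z + p j) := fun z hz =>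
    congrArg Subtype.val (congrFun he ⟨z, hz⟩)
  rcases lt_or_gt_of_ne hij with h | h
  · exact key i j h he'
  · exact key j i h fun z hz => (he' z hz).symm

/-- a sequence of nested half-spaces -/
theorem nestseq (hΓ : IsMedian Γ) {D : ℕ} (hD : ∀ v, (Γ.neighborSet v).encard ≤ D)
    {f : (Fin n → ℤ) → V} (hf : Iso Γ f) (c : Fin n) : ∃ a : ℕ ↪o ℕ, ∀ i j, i < j →
      HS Γ f c (((a j : ℕ) : ℤ) • uv c true) ⊂ HS Γ f c (((a i : ℕ) : ℤ) • uv c true) := by
  have : IsTrans (Set V) (fun A B => B ⊂ A) := ⟨fun A B C h1 h2 => h2.trans h1⟩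
  obtain ⟨a, ha | ha⟩ := exists_increasing_or_nonincreasing_subseq (fun A B : Set V => B ⊂ A)
    (fun m : ℕ => HS Γ f c ((m : ℤ) • uv c true))
  · exact ⟨a, ha⟩
  · exfalso
    obtain ⟨i, j, -, -, hij, h⟩ := nestpair hΓ hD hf c 0 (fun i => ((a i : ℕ) : ℤ))
      (fun i j _ _ hij h => hij (a.injective (by exact_mod_cast h)))
    rw [zero_add, zero_add] at h
    rcases lt_or_gt_of_ne hij with h1 | h1
    · exact ha i j h1 h
    · have h2 : a j < a i := a.strictMono h1
      have h3 := (mem_HS hf c 0 ((a j : ℕ) : ℤ) ((a i : ℕ) : ℤ)).2 (by exact_mod_cast h2)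
      rw [zero_add, zero_add] at h3
      have h4 := h.subset h3
      have h5 := (mem_HS hf c 0 ((a i : ℕ) : ℤ) ((a i : ℕ) : ℤ)).1 (by
        rw [zero_add]; exact h4)
      exact lt_irrefl _ h5

/-- a flat with a global period gives `ℤ²` -/
theorem period_z2 (hA : Act G Γ) {M : ℕ} (hM : ∀ v : V, {g : G | g • v = v}.encard ≤ M)
    {D : ℕ} (hD : ∀ v, (Γ.neighborSet v).encard ≤ D)
    (hn : 2 ≤ n) {f : (Fin n → ℤ) → V} (hf : Iso Γ f) {a : G} {w : Fin n → ℤ} (hw : w ≠ 0)
    (h : ∀ x, a • f x = f (x + w)) : ∃ φ : Multiplicative (ℤ × ℤ) →* G, Injective φ := by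
  obtain ⟨α, hα⟩ := Function.ne_iff.1 hw
  rw [Pi.zero_apply] at hα
  obtain ⟨β, hβ⟩ : ∃ β : Fin n, β ≠ α := by
    have : Nontrivial (Fin n) := Fin.nontrivial_iff_two_le.2 hn
    exact exists_ne α
  have hpow : ∀ (m : ℕ) x, a ^ m • f x = f (x + (m : ℤ) • w) := by
    intro m
    induction m with
    | zero => intro x; simp
    | succ m ih =>
      intro x
      rw [pow_succ, mul_smul, h, ih]
      congr 1
      push_cast
      module
  obtain ⟨S, hS⟩ : ∃ S, S = M * nm w + 1 := ⟨_, rfl⟩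
  obtain ⟨b, hb⟩ := nestseq hA.med hD hf β
  obtain ⟨i', j', hij', u, hu⟩ := iso_repeat hA hf (fun m => ((b m : ℕ) : ℤ) • uv β true) S
  obtain ⟨i, hi⟩ : ∃ i : ℕ, i = b i' := ⟨_, rfl⟩
  obtain ⟨j, hj⟩ : ∃ j : ℕ, j = b j' := ⟨_, rfl⟩
  have hij : i < j := by rw [hi, hj]; exact b.strictMono hij'
  have hnest := hb i' j' hij'
  simp only [← hi, ← hj] at hu hnest
  have hmw : ∀ (m : ℕ), m ≤ M → ∀ k, m * (w k).natAbs ≤ M * nm w := fun m hm k =>
    Nat.mul_le_mul hm (le_nm w k)
  obtain ⟨m, m', hm, hmM, he⟩ := pig hM (a := f ((i : ℤ) • uv β true)) (b := f ((j : ℤ) • uv β true))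
    (fun m => (a ^ m)⁻¹ * u * a ^ m) (fun m hm => by
      have h1 := hu ((m : ℤ) • w) (fun k => by
        have := hmw m hm k
        simp only [Pi.smul_apply, smul_eq_mul, nk]
        omega)
      rw [mul_smul, mul_smul, hpow, add_comm, h1, inv_smul_eq_iff, hpow, add_comm])
  obtain ⟨d, rfl⟩ := Nat.exists_eq_add_of_lt hm
  have hc : Commute (a ^ (d + 1)) u := by
    have e : a ^ (m + d + 1) = a ^ (d + 1) * a ^ m := by rw [← pow_add]; congr 1; ring
    rw [e, mul_inv_rev] at he
    have h1 : u = (a ^ (d + 1))⁻¹ * u * a ^ (d + 1) := by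
      have h2 := congrArg (fun y => a ^ m * y * (a ^ m)⁻¹) he
      simp only [mul_assoc, mul_inv_cancel_left] at h2
      simpa [mul_assoc] using h2
    have h3 : a ^ (d + 1) * u = u * a ^ (d + 1) := by
      conv_lhs => rw [h1]
      simp [mul_assoc]
    exact h3
  have hd : d + 1 ≤ M := by omega
  have hut : LP f u (((j : ℤ) - i) • uv β true) ((i : ℤ) • uv β true) (fun _ => S) := by
    intro x hx
    have h1 := hu (x - (i : ℤ) • uv β true) (fun k => by simpa using hx k)
    simp only [sub_add_cancel] at h1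
    rw [h1]
    congr 1
    module
  have hat : LP f (a ^ (d + 1)) (((d + 1 : ℕ) : ℤ) • w) ((i : ℤ) • uv β true)
      (fun k => ((((d + 1 : ℕ) : ℤ) • w) k).natAbs +
        ((((j : ℤ) - i) • uv β true : Fin n → ℤ) k).natAbs + 1) := fun x _ => hpow _ _
  have hat' : LP f (a ^ (d + 1)) (((d + 1 : ℕ) : ℤ) • w) ((i : ℤ) • uv β true)
      (fun k => D * ((((d + 1 : ℕ) : ℤ) • w) k).natAbs + 1) := fun x _ => hpow _ _
  refine z2_of_LP hA hf hc hat hut (fun k => le_rfl) (fun k => ?_)
    (fun c hc k hk => free_of_LP hA hD hf hat' (fun i => le_rfl) hc k hk)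
    (fun c _ hc k hk => ?_) ?_
  · have := hmw (d + 1) hd k
    simp only [Pi.smul_apply, smul_eq_mul, nk]
    omega
  · have hcβ : c = β := by
      by_contra hne
      apply hc
      simp [uv_ne hne]
    subst hcβ
    refine free_of_nest (Or.inl ?_) hk
    have h1 := hut.hs hA hf c (s := 0) (by omega)
    rw [zero_smul, add_zero] at h1
    rw [h1]
    have e : (i : ℤ) • uv c true + (0 + (((j : ℤ) - i) • uv c true : Fin n → ℤ) c) • uv c true =
        (j : ℤ) • uv c true := by
      simp only [Pi.smul_apply, smul_eq_mul, uv_true, mul_one, zero_add]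
      module
    rw [e]
    exact hnest
  · intro hp
    have h1 := hp α β
    simp only [Pi.smul_apply, smul_eq_mul, uv_true, uv_ne hβ.symm, mul_zero, mul_one] at h1
    rcases mul_eq_zero.1 h1 with h2 | h2
    · rcases mul_eq_zero.1 h2 with h3 | h3
      · push_cast at h3; omega
      · exact hα h3
    · omega

/-- local periods at every place give `ℤ²` -/
theorem local_z2 (hA : Act G Γ) {M : ℕ} (hM : ∀ v : V, {g : G | g • v = v}.encard ≤ M)
    {D : ℕ} (hD : ∀ v, (Γ.neighborSet v).encard ≤ D)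
    (hZ : ¬ ∃ φ : Multiplicative (ℤ × ℤ) →* G, Injective φ)
    (hn : 2 ≤ n) {f : (Fin n → ℤ) → V} (hf : Iso Γ f) {q : Fin n → ℕ} (hq : ∀ i, 1 ≤ q i)
    (H : ∀ p, ∃ (g : G) (v : Fin n → ℤ), v ≠ 0 ∧ (∀ i, (v i).natAbs ≤ q i) ∧
      LP f g v p (fun i => (M * (D + 2) + 5) * q i)) : False := by
  choose g v hv0 hvq hg using H
  have hpar : ∀ p i b, Par (v p) (v (p + uv i b)) := by
    intro p i b
    refine parallel_periods hA hM hD hZ hf (q := q) (r := fun i => (M * (D + 2) + 5) * q i - 1)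
      (fun k => ?_) (p := p) ((hg p).mono fun k => ?_) ((hg (p + uv i b)).mono fun k => ?_)
      (hvq p) (hvq _)
    · have h1 := hq k
      have e : (M * (D + 2) + 5) * q k = (M * (D + 2) + 1) * q k + 4 * q k := by ring
      omega
    · simp only [sub_self, Int.natAbs_zero]
      omega
    · have h1 := hq k
      have h2 := uv_le i b k
      have e : (M * (D + 2) + 5) * q k = (M * (D + 2) + 1) * q k + 4 * q k := by ring
      simp only [Pi.add_apply]
      omega
  have hpar0 : ∀ p, Par (v p) (v 0) := by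
    refine conn (fun a b => mul_comm _ _) fun p i b hp => ?_
    exact Par.trans' (hv0 p) (hpar p i b) hp
  obtain ⟨s, hs0, hs⟩ := exists_prim (hv0 0)
  obtain ⟨α, hα⟩ := Function.ne_iff.1 hs0
  rw [Pi.zero_apply] at hα
  have hH : ∀ p, ∃ (g : G) (k : ℕ), 0 < k ∧ (∀ i, k * (s i).natAbs ≤ q i) ∧
      LP f g ((k : ℤ) • s) p (fun i => (M * (D + 2) + 4) * q i) := by
    intro p
    obtain ⟨k, hk⟩ := hs (v p) (hpar0 p)
    have hk0 : k ≠ 0 := fun h => hv0 p (by rw [hk, h, zero_smul])
    have hkq : ∀ i, k.natAbs * (s i).natAbs ≤ q i := fun i => by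
      have := hvq p i
      rw [hk, Pi.smul_apply, smul_eq_mul, Int.natAbs_mul] at this
      exact this
    rcases lt_or_gt_of_ne hk0 with h1 | h1
    · refine ⟨(g p)⁻¹, k.natAbs, by omega, hkq, ?_⟩
      have h2 := (hg p).inv (r' := fun i => (M * (D + 2) + 4) * q i) (fun i => by
        have := hvq p i
        have e : (M * (D + 2) + 5) * q i = (M * (D + 2) + 4) * q i + q i := by ring
        omega)
      have e : ((k.natAbs : ℕ) : ℤ) • s = -(v p) := by
        rw [hk, ← neg_smul]
        congr 1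
        omega
      rw [e]
      exact h2
    · refine ⟨g p, k.natAbs, by omega, hkq, ?_⟩
      have e : ((k.natAbs : ℕ) : ℤ) • s = v p := by
        rw [hk]
        congr 1
        omega
      rw [e]
      refine (hg p).mono fun i => ?_
      have e : (M * (D + 2) + 5) * q i = (M * (D + 2) + 4) * q i + q i := by ring
      simp only [sub_self, Int.natAbs_zero]
      omega
  choose h k hk0 hkq hh using hH
  have hr : ∀ i, (2 * M + 3) * q i + 1 ≤ (fun i => (M * (D + 2) + 4) * q i) i := fun i => by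
    have := hq i
    have e : (M * (D + 2) + 4) * q i = M * D * q i + (2 * M + 3) * q i + q i := by ring
    show (2 * M + 3) * q i + 1 ≤ (M * (D + 2) + 4) * q i
    omega
  have htube : ∀ (p : Fin n → ℤ) (j : ℕ),
      LP f (h p) ((k p : ℤ) • s) (p + (j : ℤ) • s) (fun _ => 1) := fun p =>
    tube hM hr (fun p => ⟨h p, k p, hk0 p, hkq p, hh p⟩) (hkq p) (hh p)
  have hkd : ∀ p, k p ∣ (q α).factorial := fun p => by
    refine Nat.dvd_factorial (hk0 p) ?_
    have h1 := hkq p α
    have h2 : 1 ≤ (s α).natAbs := by omega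
    calc k p = k p * 1 := (mul_one _).symm
      _ ≤ k p * (s α).natAbs := Nat.mul_le_mul_left _ h2
      _ ≤ q α := h1
  have hconst : ∀ p, h p ^ ((q α).factorial / k p * M.factorial) =
      h 0 ^ ((q α).factorial / k 0 * M.factorial) := by
    refine conn rfl fun p i b hp => ?_
    rw [← hp]
    exact (tube_eq hM (htube p) (htube (p + uv i b)) (fun k => by
      simp only [Pi.add_apply, add_sub_cancel_left]
      exact uv_le i b k) (hkd p) (hkd _)).symm
  refine hZ (period_z2 hA hM hD hn hf (a := h 0 ^ ((q α).factorial / k 0 * M.factorial))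
    (w := (((q α).factorial * M.factorial : ℕ) : ℤ) • s) ?_ fun x => ?_)
  · intro h1
    have h2 := congrFun h1 α
    simp only [Pi.smul_apply, smul_eq_mul, Pi.zero_apply] at h2
    rcases mul_eq_zero.1 h2 with h3 | h3
    · have : 0 < (q α).factorial * M.factorial :=
        Nat.mul_pos (Nat.factorial_pos _) (Nat.factorial_pos _)
      omega
    · exact hα h3
  · rw [← hconst x]
    have h1 := tube_pow (htube x) ((q α).factorial / k x * M.factorial) 0 x (fun i => by simp)
    rw [Nat.cast_zero, zero_smul, add_zero, zero_add, Nat.mul_right_comm,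
      Nat.div_mul_cancel (hkd x)] at h1
    exact h1

/-- near every point of every flat there is a place without short local periods -/
theorem unif (hA : Act G Γ) {M : ℕ} (hM : ∀ v : V, {g : G | g • v = v}.encard ≤ M)
    {D : ℕ} (hD : ∀ v, (Γ.neighborSet v).encard ≤ D)
    (hZ : ¬ ∃ φ : Multiplicative (ℤ × ℤ) →* G, Injective φ)
    (hn : 2 ≤ n) {q : Fin n → ℕ} (hq : ∀ i, 1 ≤ q i) :
    ∃ S : ℕ, ∀ f : (Fin n → ℤ) → V, Iso Γ f → ∀ p₀ : Fin n → ℤ, ∃ p : Fin n → ℤ,
      (∀ i, (p i - p₀ i).natAbs ≤ S) ∧ ∀ (g : G) (v : Fin n → ℤ), v ≠ 0 →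
        (∀ i, (v i).natAbs ≤ q i) → ¬ LP f g v p (fun i => (M * (D + 2) + 5) * q i) := by
  by_contra hcon
  push Not at hcon
  choose f hf p₀ hp₀ using hcon
  obtain ⟨K, hK, hGK⟩ := hA.orb
  choose a ha using fun m => hGK (f m (p₀ m))
  obtain ⟨h, hh⟩ := Pool.Agent.N47.SQ.cluster (fun m z => a m • f m (z + p₀ m))
    (fun z : Fin n → ℤ => {w | ∃ u ∈ K, Γ.dist u w ≤ nm z})
    (fun z => hA.ballK hK _) (fun m z => ⟨_, ha m, by
      rw [hA.dist, hf m, ← ds_zero]
      have := ds_add 0 z (p₀ m)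
      rw [zero_add] at this
      rw [this]⟩)
  have key : ∀ R N : ℕ, ∃ m, N ≤ m ∧ ∀ z ∈ Win n R, h z = a m • f m (z + p₀ m) := by
    intro R N
    obtain ⟨m, hm, hm2⟩ := hh _ (Pool.Agent.V5helper79.BX.win_finite R) N
    exact ⟨m, hm, fun z hz => (hm2 z hz).symm⟩
  have hIso : Iso Γ h := by
    intro z w
    obtain ⟨m, -, hm⟩ := key (nm z + nm w) 0
    rw [hm z fun i => (le_nm z i).trans (by omega), hm w fun i => (le_nm w i).trans (by omega),
      hA.dist, hf m, ds_add]
  refine local_z2 hA hM hD hZ hn hIso hq fun p => ?_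
  obtain ⟨R, hR⟩ : ∃ R, R = nm p + ∑ i, ((M * (D + 2) + 5) * q i + q i) := ⟨_, rfl⟩
  have hRi : ∀ i, nm p + ((M * (D + 2) + 5) * q i + q i) ≤ R := fun i => by
    rw [hR]
    have := Finset.single_le_sum (f := fun i => (M * (D + 2) + 5) * q i + q i)
      (fun i _ => Nat.zero_le _) (Finset.mem_univ i)
    omega
  obtain ⟨m, hmN, hm⟩ := key R (nm p)
  obtain ⟨g, v, hv0, hvq, hg⟩ := hp₀ m (p + p₀ m) (fun i => by
    have := le_nm p i
    simp only [Pi.add_apply, add_sub_cancel_right]
    omega)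
  refine ⟨a m * g * (a m)⁻¹, v, hv0, hvq, fun x hx => ?_⟩
  have hx' : ∀ i, (x i - p i).natAbs ≤ (M * (D + 2) + 5) * q i := hx
  rw [hm x fun i => ?_, hm (x + v) fun i => ?_, mul_smul, mul_smul, inv_smul_smul,
    hg (x + p₀ m) fun i => ?_]
  · congr 2
    abel
  · have := hx' i
    simp only [Pi.add_apply, add_sub_add_right_eq_sub]
    exact this
  · have h1 := hx' i
    have h2 := hRi i
    have h3 := le_nm p i
    have h4 := hvq i
    simp only [Pi.add_apply]
    omega
  · have h1 := hx' i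
    have h2 := hRi i
    have h3 := le_nm p i
    omega

end Pool.Agent.V5helper79.PC
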