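import Pool.Agent.V5helper79.BX.Det

/-!
# Half-spaces of median graphs along isometric flats
-/

set_option autoImplicit false

namespace Pool.Agent.V5helper79.PC

open Function Set
open Pool.Agent.N47.SQ hiding Act par
open Pool.Agent.V5helper79.BX hiding par par1
open scoped Pointwise

variable {V : Type*} {Γ : SimpleGraph V} {n : ℕ} {G : Type*} [Group G] [MulAction G V]

theorem toward (hΓ : IsMedian Γ) {u q : V} {k : ℕ} (h : Γ.dist u q = k + 1) :
    ∃ u', Γ.Adj u u' ∧ Γ.dist u' q = k := by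
  obtain ⟨p, hp⟩ := (hΓ.1 u q).exists_walk_length_eq_dist
  cases p with
  | nil => rw [h] at hp; simp at hp
  | @cons _ u' _ hadj p =>
    refine ⟨u', hadj, ?_⟩
    rw [SimpleGraph.Walk.length_cons, h] at hp
    have h1 := SimpleGraph.dist_le p
    have h2 := hΓ.tri u u' q
    rw [(adj_iff _ _).2 hadj] at h2
    omega

/-- edges which cross the same hyperplane define the same half-spaces -/
theorem theta (hΓ : IsMedian Γ) {p q : V} (hpq : Γ.Adj p q) : ∀ (k : ℕ) (u v : V), Γ.Adj u v →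
    Γ.dist u q = k → Γ.dist u q < Γ.dist u p → Γ.dist v p < Γ.dist v q →
    ∀ x, Γ.dist x u < Γ.dist x v ↔ Γ.dist x q < Γ.dist x p := by
  intro k
  induction k with
  | zero =>
    intro u v huv h0 h1 h2 x
    have e1 : u = q := (hΓ.eq_iff _ _).1 h0
    subst e1
    rw [dcomm v u, (adj_iff _ _).2 huv] at h2
    have e2 : v = p := (hΓ.eq_iff _ _).1 (by omega)
    rw [e2]
  | succ k ih =>
    intro u v huv h0 h1 h2 x
    have a1 := hΓ.ne_dist hpq u
    have a2 := hΓ.ne_dist hpq v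
    have a3 := hΓ.tri u v p
    have a4 := hΓ.tri v u q
    rw [(adj_iff _ _).2 huv] at a3
    rw [dcomm v u, (adj_iff _ _).2 huv] at a4
    obtain ⟨u', b1, b2⟩ := toward hΓ h0
    have a5 := hΓ.tri u u' p
    have a6 := hΓ.ne_dist hpq u'
    rw [(adj_iff _ _).2 b1] at a5
    have c1 : Γ.dist u p = k + 2 := by omega
    have c2 : Γ.dist u' p = k + 1 := by omega
    have c3 : Γ.dist v p = k + 1 := by omega
    have n1 : v ≠ u' := fun e => by rw [← e] at b2; omega
    obtain ⟨s, s1, s2, s3⟩ := hΓ.quad (v := p) (p := v) (q := u) (r := u') huv b1 n1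
      (by rw [dcomm p u, dcomm p v]; omega) (by rw [dcomm p u, dcomm p u']; omega)
    rw [dcomm p v, dcomm p s] at s3
    have a7 := hΓ.tri v s q
    rw [(adj_iff _ _).2 s1] at a7
    have n2 : u ≠ s := fun e => by rw [← e] at s3; omega
    rw [← ih u' s s2 b2 (by omega) (by omega) x]
    constructor
    · exact parallel hΓ huv.symm s2.symm s1 b1 n1 n2
    · exact parallel hΓ s2.symm huv.symm s1.symm b1.symm n2.symm n1.symm

/-- convex sets of vertices -/
def Cx (Γ : SimpleGraph V) (S : Set V) : Prop :=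
  ∀ a b m, a ∈ S → b ∈ S → Γ.dist a m + Γ.dist m b = Γ.dist a b → m ∈ S

/-- half-spaces are convex -/
theorem half_convex (hΓ : IsMedian Γ) {p q : V} (hpq : Γ.Adj p q) :
    Cx Γ {v | Γ.dist v q < Γ.dist v p} := by
  have key : ∀ (N : ℕ) (a b m : V), Γ.dist a m = N → Γ.dist a q < Γ.dist a p →
      Γ.dist b q < Γ.dist b p → Γ.dist a m + Γ.dist m b = Γ.dist a b →
      Γ.dist m q < Γ.dist m p := by
    intro N
    induction N with
    | zero => intro a b m h ha _ _; rw [← (hΓ.eq_iff _ _).1 h]; exact ha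
    | succ N ih =>
      intro a b m h ha hb hm
      obtain ⟨a', h1, h2⟩ := toward hΓ h
      have t1 := hΓ.tri a a' b
      have t2 := hΓ.tri a' m b
      rw [(adj_iff _ _).2 h1] at t1
      have h3 : Γ.dist a' b + 1 = Γ.dist a b := by omega
      rcases hΓ.ne_dist hpq a' with h4 | h4
      · exact ih a' b m h2 (by omega) hb (by omega)
      · exfalso
        have := (theta hΓ hpq _ a a' h1 rfl ha (by omega) b).2 hb
        rw [dcomm b a, dcomm b a'] at this
        omega
  intro a b m ha hb hm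
  exact key _ a b m rfl ha hb hm

theorem half_compl (hΓ : IsMedian Γ) {p q : V} (hpq : Γ.Adj p q) :
    {v | Γ.dist v q < Γ.dist v p}ᶜ = {v | Γ.dist v p < Γ.dist v q} := by
  ext v
  have := hΓ.ne_dist hpq v
  simp only [Set.mem_compl_iff, Set.mem_ofPred_eq]
  omega

/-- there are at most `D` pairwise crossing half-spaces if all degrees are at most `D` -/
theorem no_cross (hΓ : IsMedian Γ) {D : ℕ} (hD : ∀ v, (Γ.neighborSet v).encard ≤ D)
    (U : ℕ → Set V) (hc : ∀ i, Cx Γ (U i)) (hc' : ∀ i, Cx Γ (U i)ᶜ) {x y : V}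
    (hx : ∀ i ≤ D, x ∈ U i) (hy : ∀ i ≤ D, y ∉ U i)
    (hcr : ∀ i j, i ≤ D → j ≤ D → i ≠ j → ∃ u, u ∈ U j ∧ u ∉ U i) : False := by
  have hS : ∀ k ≤ D, ∀ N, N ≤ D + 1 → ∃ s, s ∉ U k ∧ ∀ j < N, j ≠ k → s ∈ U j := by
    intro k hk N
    induction N with
    | zero => intro _; exact ⟨y, hy k hk, fun j hj => absurd hj (Nat.not_lt_zero _)⟩
    | succ N ih =>
      intro hN
      obtain ⟨s, hs, hs'⟩ := ih (by omega)
      by_cases hNk : N = k
      · exact ⟨s, hs, fun j hj hjk => hs' j (by omega) hjk⟩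
      · obtain ⟨u, hu, hu'⟩ := hcr k N hk (by omega) (Ne.symm hNk)
        obtain ⟨m, ⟨m1, m2, m3⟩, -⟩ := hΓ.2 s u x
        refine ⟨m, hc' k s u m hs hu' m1, fun j hj hjk => ?_⟩
        rcases Nat.lt_or_ge j N with h1 | h1
        · exact hc j s x m (hs' j h1 hjk) (hx j (by omega)) m3
        · have h2 : j = N := by omega
          rw [h2]
          exact hc N u x m hu (hx N (by omega)) m2
  classical
  have hex : ∃ d, ∃ x y, (∀ i ≤ D, x ∈ U i) ∧ (∀ i ≤ D, y ∉ U i) ∧ Γ.dist x y = d :=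
    ⟨_, x, y, hx, hy, rfl⟩
  obtain ⟨x, y, hx, hy, hxy⟩ := Nat.find_spec hex
  have hmin := fun d => Nat.find_min hex (m := d)
  rw [← hxy] at hmin
  have hk : ∀ k ≤ D, ∃ z, Γ.Adj x z ∧ z ∉ U k ∧ ∀ j ≤ D, j ≠ k → z ∈ U j := by
    intro k hk
    obtain ⟨s, hs, hs'⟩ := hS k hk (D + 1) le_rfl
    obtain ⟨m, ⟨m1, m2, m3⟩, -⟩ := hΓ.2 x y s
    have hmk : m ∉ U k := hc' k y s m (hy k hk) hs m2
    have hmj : ∀ j ≤ D, j ≠ k → m ∈ U j := fun j hj hjk =>
      hc j x s m (hx j hj) (hs' j (by omega) hjk) m3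
    have hne : Γ.dist x m ≠ 0 := fun h => hmk ((hΓ.eq_iff _ _).1 h ▸ hx k hk)
    obtain ⟨t, ht⟩ := Nat.exists_eq_succ_of_ne_zero hne
    obtain ⟨z, z1, z2⟩ := toward hΓ ht
    have hzj : ∀ j ≤ D, j ≠ k → z ∈ U j := fun j hj hjk =>
      hc j x m z (hx j hj) (hmj j hj hjk) (by rw [(adj_iff _ _).2 z1]; omega)
    refine ⟨z, z1, fun hzk => ?_, hzj⟩
    have t1 := hΓ.tri z m y
    refine hmin (Γ.dist z y) (by omega) ⟨z, y, fun j hj => ?_, hy, rfl⟩
    by_cases hjk : j = k
    · rw [hjk]; exact hzk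
    · exact hzj j hj hjk
  choose z hz using fun k : Fin (D + 1) => hk k (by omega)
  have hinj : Injective z := by
    intro a b hab
    by_contra hne
    have h1 := (hz a).2.2 b (by omega) (fun e => hne (Fin.ext e.symm))
    exact (hz b).2.1 (hab ▸ h1)
  have h1 : (Set.range z).encard ≤ D := by
    refine (Set.encard_le_encard ?_).trans (hD x)
    rintro _ ⟨k, rfl⟩
    exact (hz k).1
  rw [← Set.image_univ, hinj.injOn.encard_image, Set.encard_univ] at h1
  simp at h1
  have h2 : ((D + 1 : ℕ) : ℕ∞) ≤ D := by exact_mod_cast h1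
  have h3 : D + 1 ≤ D := by exact_mod_cast h2
  omega

/-! ### isometric flats -/

/-- isometric flats -/
def Iso (Γ : SimpleGraph V) (f : (Fin n → ℤ) → V) : Prop := ∀ z w, Γ.dist (f z) (f w) = ds z w

theorem Iso.inj {f : (Fin n → ℤ) → V} (hf : Iso Γ f) {z w : Fin n → ℤ} (h : f z = f w) :
    z = w := by
  apply eq_of_ds
  rw [← hf, h, SimpleGraph.dist_self]

theorem Iso.adj {f : (Fin n → ℤ) → V} (hf : Iso Γ f) {z w : Fin n → ℤ} (h : ds z w = 1) :
    Γ.Adj (f z) (f w) := by
  rw [← adj_iff, hf, h]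

/-- parallel edges of a strip -/
theorem par1 (hΓ : IsMedian Γ) {f : (Fin n → ℤ) → V} (hf : Iso Γ f) {v : V} {i j : Fin n}
    (hij : i ≠ j) (b c : Bool) {x : Fin n → ℤ}
    (h : Γ.dist v (f (x + uv j c)) < Γ.dist v (f x)) :
    Γ.dist v (f (x + uv i b + uv j c)) < Γ.dist v (f (x + uv i b)) := by
  refine parallel hΓ (hf.adj (ds_uv x j c)) (hf.adj (ds_uv (x + uv i b) j c))
    (hf.adj (ds_uv x i b)) ?_ ?_ ?_ h
  · refine hf.adj ?_
    rw [add_right_comm]
    exact ds_uv _ i b
  · intro h1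
    have := congrFun (hf.inj h1) j
    simp only [Pi.add_apply, uv_ne hij.symm, uv_self] at this
    split_ifs at this <;> omega
  · intro h1
    have := congrFun (hf.inj h1) j
    simp only [Pi.add_apply, uv_ne hij.symm, uv_self] at this
    split_ifs at this <;> omega

/-- the half-space of an edge of a flat -/
def HS (Γ : SimpleGraph V) (f : (Fin n → ℤ) → V) (c : Fin n) (x : Fin n → ℤ) : Set V :=
  {v | Γ.dist v (f (x + uv c true)) < Γ.dist v (f x)}

theorem HS_step (hΓ : IsMedian Γ) {f : (Fin n → ℤ) → V} (hf : Iso Γ f) {c i : Fin n}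
    (hic : i ≠ c) (b : Bool) (x : Fin n → ℤ) : HS Γ f c (x + uv i b) = HS Γ f c x := by
  ext v
  simp only [HS, Set.mem_ofPred_eq]
  refine ⟨fun h => ?_, par1 hΓ hf hic b true⟩
  have h1 := par1 hΓ hf hic (!b) true h
  have e : x + uv i b + uv i (!b) = x := by
    funext k
    by_cases hk : k = i
    · subst hk
      cases b <;> simp [uv]
    · simp only [Pi.add_apply, uv_ne hk]; omega
  rwa [e] at h1

theorem HS_congr (hΓ : IsMedian Γ) {f : (Fin n → ℤ) → V} (hf : Iso Γ f) {c : Fin n} (N : ℕ) :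
    ∀ x y : Fin n → ℤ, ds x y = N → x c = y c → HS Γ f c x = HS Γ f c y := by
  induction N with
  | zero => intro x y h _; rw [eq_of_ds h]
  | succ N ih =>
    intro x y h hc
    have hne : x ≠ y := fun e => by rw [e, ds_self] at h; omega
    obtain ⟨i, hi⟩ := Function.ne_iff.1 hne
    have hic : i ≠ c := fun e => hi (e ▸ hc)
    obtain ⟨b, hb⟩ : ∃ b : Bool, (x i - (y i + if b then 1 else -1)).natAbs + 1 =
        (x i - y i).natAbs := by
      rcases lt_or_gt_of_ne hi with h1 | h1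
      · exact ⟨false, by simp only [Bool.false_eq_true, if_false]; omega⟩
      · exact ⟨true, by simp only [if_true]; omega⟩
    have e : y + uv i b = update y i (y i + if b then 1 else -1) := by
      have := add_uv y i b 1
      rwa [one_smul, one_mul] at this
    have h2 : ds x (y + uv i b) = N := by
      have h3 := ds_upd y x i (y i + if b then 1 else -1)
      rw [← e] at h3
      rw [ds_comm] at h ⊢
      omega
    rw [ih x (y + uv i b) h2 (by rw [Pi.add_apply, uv_ne hic.symm, add_zero]; exact hc),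
      HS_step hΓ hf hic]

theorem mem_HS {f : (Fin n → ℤ) → V} (hf : Iso Γ f) (c : Fin n) (p : Fin n → ℤ)
    (s t : ℤ) : f (p + t • uv c true) ∈ HS Γ f c (p + s • uv c true) ↔ s < t := by
  have e : p + s • uv c true + uv c true = p + (s + 1) • uv c true := by
    rw [add_smul, one_smul, add_assoc]
  simp only [HS, Set.mem_ofPred_eq]
  rw [e, hf, hf, ds_line, ds_line]
  omega

/-- among `D + 1` levels two are nested -/
theorem nestpair (hΓ : IsMedian Γ) {D : ℕ} (hD : ∀ v, (Γ.neighborSet v).encard ≤ D)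
    {f : (Fin n → ℤ) → V} (hf : Iso Γ f) (c : Fin n) (p : Fin n → ℤ) (a : ℕ → ℤ)
    (ha : ∀ i j, i ≤ D → j ≤ D → i ≠ j → a i ≠ a j) :
    ∃ i j, i ≤ D ∧ j ≤ D ∧ i ≠ j ∧
      HS Γ f c (p + a j • uv c true) ⊂ HS Γ f c (p + a i • uv c true) := by
  by_contra hcon
  push Not at hcon
  obtain ⟨N, hN⟩ : ∃ N : ℕ, ∀ i ≤ D, (a i).natAbs ≤ N := by
    refine ⟨∑ i ∈ Finset.range (D + 1), (a i).natAbs, fun i hi => ?_⟩
    exact Finset.single_le_sum (f := fun i => (a i).natAbs) (fun _ _ => Nat.zero_le _)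
      (Finset.mem_range.2 (by omega))
  have hadj : ∀ i, Γ.Adj (f (p + a i • uv c true)) (f (p + a i • uv c true + uv c true)) :=
    fun i => hf.adj (ds_uv _ c true)
  refine no_cross hΓ hD (fun i => HS Γ f c (p + a i • uv c true))
    (fun i => half_convex hΓ (hadj i))
    (fun i => by
      unfold HS
      rw [half_compl hΓ (hadj i)]
      exact half_convex hΓ (hadj i).symm)
    (x := f (p + ((N : ℤ) + 1) • uv c true)) (y := f (p + (-(N : ℤ)) • uv c true))
    (fun i hi => (mem_HS hf c p _ _).2 (by have := hN i hi; omega))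
    (fun i hi => fun h => by
      have h1 := (mem_HS hf c p _ _).1 h
      have := hN i hi
      omega)
    fun i j hi hj hij => ?_
  rcases lt_or_gt_of_ne (ha i j hi hj hij) with h | h
  · -- the level of `j` is higher: the half-spaces are not nested
    by_contra h1
    push Not at h1
    have h2 : HS Γ f c (p + a j • uv c true) ⊆ HS Γ f c (p + a i • uv c true) := h1
    apply hcon i j hi hj hij
    rw [Set.ssubset_iff_of_subset h2]
    exact ⟨f (p + a j • uv c true), (mem_HS hf c p _ _).2 h, fun h3 =>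
      absurd ((mem_HS hf c p _ _).1 h3) (lt_irrefl _)⟩
  · exact ⟨f (p + a i • uv c true), (mem_HS hf c p _ _).2 h, fun h3 =>
      absurd ((mem_HS hf c p _ _).1 h3) (lt_irrefl _)⟩

end Pool.Agent.V5helper79.PC
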