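import Pool.Agent.V5helper79.PC.Chain

/-!
# Local periods of isometric flats
-/

set_option autoImplicit false

namespace Pool.Agent.V5helper79.PC

open Function Set
open Pool.Agent.N47.SQ hiding Act par
open Pool.Agent.V5helper79.BX hiding par par1
open scoped Pointwise

variable {V : Type*} {Γ : SimpleGraph V} {n : ℕ} {G : Type*} [Group G] [MulAction G V]

/-- `g` translates `f` by `v` on the box of radii `r` around `p` -/
def LP (f : (Fin n → ℤ) → V) (g : G) (v p : Fin n → ℤ) (r : Fin n → ℕ) : Prop :=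
  ∀ x : Fin n → ℤ, (∀ i, (x i - p i).natAbs ≤ r i) → g • f x = f (x + v)

theorem LP.mono {f : (Fin n → ℤ) → V} {g : G} {v p p' : Fin n → ℤ} {r r' : Fin n → ℕ}
    (h : LP f g v p r) (hr : ∀ i, (p' i - p i).natAbs + r' i ≤ r i) : LP f g v p' r' := by
  intro x hx
  refine h x fun i => ?_
  have := hx i
  have := hr i
  omega

theorem LP.pow {f : (Fin n → ℤ) → V} {g : G} {v p : Fin n → ℤ} {r r' : Fin n → ℕ}
    (h : LP f g v p r) (m : ℕ) (hr : ∀ i, m * (v i).natAbs + r' i ≤ r i) :
    LP f (g ^ m) ((m : ℤ) • v) p r' := by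
  induction m generalizing r' with
  | zero => intro x _; simp
  | succ m ih =>
    intro x hx
    have h1 := ih (r' := fun i => r' i + (v i).natAbs) (fun i => by
      have := hr i
      rw [Nat.succ_mul] at this
      omega)
    rw [pow_succ, mul_smul, h x (fun i => by have := hx i; have := hr i; omega), h1]
    · congr 1
      push_cast
      module
    · intro i
      have := hx i
      simp only [Pi.add_apply]
      omega

theorem LP.inv {f : (Fin n → ℤ) → V} {g : G} {v p : Fin n → ℤ} {r r' : Fin n → ℕ}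
    (h : LP f g v p r) (hr : ∀ i, (v i).natAbs + r' i ≤ r i) : LP f g⁻¹ (-v) p r' := by
  intro x hx
  rw [inv_smul_eq_iff, h (x + -v), neg_add_cancel_right]
  intro i
  have := hx i
  have := hr i
  simp only [Pi.add_apply, Pi.neg_apply]
  omega

theorem smul_HS (hA : Act G Γ) {f : (Fin n → ℤ) → V} {g : G} {c : Fin n} {x x' : Fin n → ℤ}
    (h1 : g • f x = f x') (h2 : g • f (x + uv c true) = f (x' + uv c true)) :
    g • HS Γ f c x = HS Γ f c x' := by
  ext v
  rw [Set.mem_smul_set_iff_inv_smul_mem]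
  simp only [HS, Set.mem_ofPred_eq]
  rw [← h1, ← h2, ← hA.dist g (g⁻¹ • v), ← hA.dist g (g⁻¹ • v), smul_inv_smul]

theorem LP.hs (hA : Act G Γ) {f : (Fin n → ℤ) → V} (hf : Iso Γ f) {g : G} {v p : Fin n → ℤ}
    {r : Fin n → ℕ} (h : LP f g v p r) (c : Fin n) {s : ℤ} (hs : s.natAbs + 1 ≤ r c) :
    g • HS Γ f c (p + s • uv c true) = HS Γ f c (p + (s + v c) • uv c true) := by
  have e1 : g • f (p + s • uv c true) = f (p + s • uv c true + v) := by
    refine h _ fun i => ?_
    by_cases hi : i = c
    · subst hi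
      simp only [Pi.add_apply, Pi.smul_apply, uv_true, smul_eq_mul]
      omega
    · simp only [Pi.add_apply, Pi.smul_apply, uv_ne hi, smul_eq_mul]
      omega
  have e2 : g • f (p + s • uv c true + uv c true) = f (p + s • uv c true + v + uv c true) := by
    rw [h _ fun i => ?_]
    · congr 1
      abel
    by_cases hi : i = c
    · subst hi
      simp only [Pi.add_apply, Pi.smul_apply, uv_true, smul_eq_mul]
      omega
    · simp only [Pi.add_apply, Pi.smul_apply, uv_ne hi, smul_eq_mul]
      omega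
  rw [smul_HS hA e1 e2]
  refine HS_congr hA.med hf _ _ _ rfl ?_
  simp only [Pi.add_apply, Pi.smul_apply, uv_true, smul_eq_mul]
  ring

theorem pow_fix {z : G} {S : Set V} {k : ℕ} (h : z ^ k • S = S) (d : ℕ) :
    (z ^ k) ^ d • S = S := by
  induction d with
  | zero => simp
  | succ d ih => rw [pow_succ, mul_smul, h, ih]

/-- an element with a long local period moves the half-spaces -/
theorem free_of_LP (hA : Act G Γ) {D : ℕ} (hD : ∀ v, (Γ.neighborSet v).encard ≤ D)
    {f : (Fin n → ℤ) → V} (hf : Iso Γ f) {z : G} {w p : Fin n → ℤ} {r : Fin n → ℕ}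
    (hz : LP f z w p r) (hr : ∀ i, D * (w i).natAbs + 1 ≤ r i) {c : Fin n} (hw : w c ≠ 0)
    (k : ℕ) (hk : 0 < k) : z ^ k • HS Γ f c p ≠ HS Γ f c p := by
  have hlev : ∀ i ≤ D, z ^ i • HS Γ f c p = HS Γ f c (p + ((i : ℤ) * w c) • uv c true) := by
    intro i hi
    have h1 := (hz.pow i (r' := fun _ => 1) fun k => by
      have := hr k
      have h2 : i * (w k).natAbs ≤ D * (w k).natAbs := Nat.mul_le_mul_right _ hi
      omega).hs hA hf c (s := 0) (by simp)
    simpa using h1
  obtain ⟨i, j, hi, hj, hij, hlt⟩ := nestpair hA.med hD hf c p (fun i => (i : ℤ) * w c)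
    (fun i j _ _ hij h => hij (by
      have := mul_right_cancel₀ hw h
      exact_mod_cast this))
  rw [← hlev i hi, ← hlev j hj] at hlt
  have hR : ∀ (g : G) (a b : Set V), g • a ⊂ g • b → a ⊂ b := by
    intro g a b hab
    rwa [Set.ssubset_def, Set.smul_set_subset_smul_set_iff, Set.smul_set_subset_smul_set_iff] at hab
  rcases lt_or_gt_of_ne hij with h | h
  · obtain ⟨d, rfl⟩ := Nat.exists_eq_add_of_lt h
    rw [add_assoc, pow_add, mul_smul] at hlt
    have h1 : z ^ (d + 1) • HS Γ f c p ⊂ HS Γ f c p := hR _ _ _ hlt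
    intro h2
    refine free_of_nest (g := z ^ (d + 1)) (Or.inl h1) hk ?_
    rw [← pow_mul, mul_comm, pow_mul]
    exact pow_fix h2 _
  · obtain ⟨d, rfl⟩ := Nat.exists_eq_add_of_lt h
    rw [add_assoc, pow_add, mul_smul] at hlt
    have h1 : HS Γ f c p ⊂ z ^ (d + 1) • HS Γ f c p := hR _ _ _ hlt
    intro h2
    refine free_of_nest (g := z ^ (d + 1)) (Or.inr h1) hk ?_
    rw [← pow_mul, mul_comm, pow_mul]
    exact pow_fix h2 _

/-- commuting elements with local periods: relations between them are relations of the periods -/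
theorem indep (hA : Act G Γ) {f : (Fin n → ℤ) → V} (hf : Iso Γ f) {z t : G} (hc : Commute z t)
    {w v p : Fin n → ℤ} {rz rt : Fin n → ℕ} (hz : LP f z w p rz) (ht : LP f t v p rt)
    (h1 : ∀ i, (w i).natAbs + (v i).natAbs + 1 ≤ rz i) (h2 : ∀ i, (w i).natAbs + 1 ≤ rt i)
    (Fz : ∀ c, w c ≠ 0 → ∀ k : ℕ, 0 < k → z ^ k • HS Γ f c p ≠ HS Γ f c p)
    (Ft : ∀ c, w c = 0 → v c ≠ 0 → ∀ k : ℕ, 0 < k → t ^ k • HS Γ f c p ≠ HS Γ f c p)
    {l m : ℤ} (h : z ^ l * t ^ m = 1) (c : Fin n) : l * w c + m * v c = 0 := by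
  by_cases hw : w c = 0
  · by_cases hv : v c = 0
    · rw [hw, hv]; ring
    · have hm := chain2 (Ft c hw hv)
        (by
          have := hz.hs hA hf c (s := 0) (by have := h1 c; omega)
          rwa [hw, add_zero, zero_smul, add_zero] at this) h
      rw [hw, hm]; ring
  · exact chain1 hc (fun s => HS Γ f c (p + s • uv c true)) hw
      (fun k hk => by
        rw [zero_smul, add_zero]
        exact Fz c hw k hk)
      (fun s hs => hz.hs hA hf c (by
        have := h1 c
        rw [Int.abs_eq_natAbs, Int.abs_eq_natAbs, Int.abs_eq_natAbs] at hs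
        omega))
      (fun s hs => ht.hs hA hf c (by
        have := h2 c
        rw [Int.abs_eq_natAbs, Int.abs_eq_natAbs] at hs
        omega)) h

/-- the vectors are parallel -/
def Par (v w : Fin n → ℤ) : Prop := ∀ a b, v a * w b = v b * w a

/-- commuting elements with local periods which are not parallel give `ℤ²` -/
theorem z2_of_LP (hA : Act G Γ) {f : (Fin n → ℤ) → V} (hf : Iso Γ f) {z t : G}
    (hc : Commute z t) {w v p : Fin n → ℤ} {rz rt : Fin n → ℕ} (hz : LP f z w p rz)
    (ht : LP f t v p rt) (h1 : ∀ i, (w i).natAbs + (v i).natAbs + 1 ≤ rz i)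
    (h2 : ∀ i, (w i).natAbs + 1 ≤ rt i)
    (Fz : ∀ c, w c ≠ 0 → ∀ k : ℕ, 0 < k → z ^ k • HS Γ f c p ≠ HS Γ f c p)
    (Ft : ∀ c, w c = 0 → v c ≠ 0 → ∀ k : ℕ, 0 < k → t ^ k • HS Γ f c p ≠ HS Γ f c p)
    (hp : ¬ Par w v) :
    ∃ φ : Multiplicative (ℤ × ℤ) →* G, Injective φ := by
  have key2 : ∀ a b : ℤ, z ^ a * t ^ b = 1 → a = 0 ∧ b = 0 := by
    intro a b h
    have h3 := indep hA hf hc hz ht h1 h2 Fz Ft h
    unfold Par at hp
    push Not at hp
    obtain ⟨i, j, hij⟩ := hp
    have hi := h3 i
    have hj := h3 j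
    constructor
    · have : a * (w i * v j - w j * v i) = 0 := by linear_combination v j * hi - v i * hj
      rcases mul_eq_zero.1 this with h4 | h4
      · exact h4
      · exact absurd (sub_eq_zero.1 h4) hij
    · have : b * (w i * v j - w j * v i) = 0 := by linear_combination w i * hj - w j * hi
      rcases mul_eq_zero.1 this with h4 | h4
      · exact h4
      · exact absurd (sub_eq_zero.1 h4) hij
  refine ⟨{ toFun := fun m => z ^ (Multiplicative.toAdd m).1 * t ^ (Multiplicative.toAdd m).2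
            map_one' := by simp
            map_mul' := ?_ }, ?_⟩
  · intro m m'
    simp only [toAdd_mul, Prod.fst_add, Prod.snd_add, zpow_add]
    have := (hc.zpow_zpow (Multiplicative.toAdd m').1 (Multiplicative.toAdd m).2).eq
    rw [mul_assoc, mul_assoc, ← mul_assoc (z ^ (Multiplicative.toAdd m').1), this, mul_assoc]
  · rw [injective_iff_map_eq_one]
    intro m hm
    obtain ⟨h1, h2⟩ := key2 _ _ hm
    exact Multiplicative.toAdd.injective (Prod.ext h1 h2)

/-- vertex stabilisers of order at most `M` -/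
theorem pig {M : ℕ} (hM : ∀ v : V, {g : G | g • v = v}.encard ≤ M) {a b : V} (x : ℕ → G)
    (hx : ∀ i ≤ M, x i • a = b) : ∃ i j, i < j ∧ j ≤ M ∧ x i = x j := by
  obtain ⟨hfin, -⟩ := Set.encard_le_coe_iff.1 (hM a)
  have hcard : hfin.toFinset.card < (Finset.range (M + 1)).card := by
    rw [Finset.card_range]
    have h := hM a
    rw [hfin.encard_eq_coe_toFinset_card] at h
    have : hfin.toFinset.card ≤ M := by exact_mod_cast h
    omega
  obtain ⟨i, hi, j, hj, hne, he⟩ := Finset.exists_ne_map_eq_of_card_lt_of_maps_to hcard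
    (f := fun i => (x 0)⁻¹ * x i) (fun i hi => by
      simp only [Finset.coe_range, Set.mem_Iio] at hi
      simp only [Set.Finite.coe_toFinset, Set.mem_ofPred_eq]
      rw [mul_smul, hx i (by omega), inv_smul_eq_iff, hx 0 (by omega)])
  simp only [Finset.mem_range] at hi hj
  have he' : x i = x j := mul_left_cancel he
  rcases lt_or_gt_of_ne hne with h | h
  · exact ⟨i, j, h, by omega, he'⟩
  · exact ⟨j, i, h, by omega, he'.symm⟩

/-- two local periods at the same place are parallel if there is no `ℤ²` -/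
theorem parallel_periods (hA : Act G Γ) {M : ℕ} (hM : ∀ v : V, {g : G | g • v = v}.encard ≤ M)
    {D : ℕ} (hD : ∀ v, (Γ.neighborSet v).encard ≤ D)
    (hZ : ¬ ∃ φ : Multiplicative (ℤ × ℤ) →* G, Injective φ)
    {f : (Fin n → ℤ) → V} (hf : Iso Γ f) {q r : Fin n → ℕ}
    (hr : ∀ i, (M * (D + 2) + 1) * q i + 1 ≤ r i) {g g' : G} {v v' p : Fin n → ℤ}
    (hg : LP f g v p r) (hg' : LP f g' v' p r) (hv : ∀ i, (v i).natAbs ≤ q i)
    (hv' : ∀ i, (v' i).natAbs ≤ q i) : Par v v' := by
  by_contra hp
  have hMq : ∀ (m : ℕ) i, m ≤ M → m * (v i).natAbs ≤ M * q i := fun m i hm =>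
    Nat.mul_le_mul hm (hv i)
  have er : ∀ i, (M * (D + 2) + 1) * q i = M * D * q i + 2 * (M * q i) + q i := fun i => by ring
  obtain ⟨i, j, hij, hjM, he⟩ := pig hM (a := f p) (b := f (p + v'))
    (fun m => (g ^ m)⁻¹ * g' * g ^ m) (fun m hm => by
      have h1 := hg.pow m (r' := fun i => q i) (fun i => by
        have := hMq m i hm
        have h3 := hr i
        have e := er i
        omega)
      rw [mul_smul, mul_smul, h1 p (fun i => by simp), hg' (p + (m : ℤ) • v) (fun i => by
        have := hMq m i hm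
        have h3 := hr i
        have e := er i
        simp only [Pi.add_apply, Pi.smul_apply, smul_eq_mul, add_sub_cancel_left, Int.natAbs_mul,
          Int.natAbs_natCast]
        omega), inv_smul_eq_iff, h1 (p + v') (fun i => by
        have := hv' i
        simp only [Pi.add_apply, add_sub_cancel_left]
        exact this)]
      congr 1
      abel)
  obtain ⟨d, rfl⟩ := Nat.exists_eq_add_of_lt hij
  have hc : Commute (g ^ (d + 1)) g' := by
    have e : g ^ (i + d + 1) = g ^ (d + 1) * g ^ i := by rw [← pow_add]; congr 1; ring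
    rw [e, mul_inv_rev] at he
    have h1 : g' = (g ^ (d + 1))⁻¹ * g' * g ^ (d + 1) := by
      have h2 := congrArg (fun y => g ^ i * y * (g ^ i)⁻¹) he
      simp only [mul_assoc, mul_inv_cancel_left] at h2
      simpa [mul_assoc] using h2
    have h3 : g ^ (d + 1) * g' = g' * g ^ (d + 1) := by
      conv_lhs => rw [h1]
      simp [mul_assoc]
    exact h3
  have hd : d + 1 ≤ M := by omega
  have er' : ∀ i, (M * (D + 1) + 1) * q i = M * D * q i + M * q i + q i := fun i => by ring
  have hgd : LP f (g ^ (d + 1)) (((d + 1 : ℕ) : ℤ) • v) p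
      (fun i => (M * (D + 1) + 1) * q i + 1) := hg.pow (d + 1) fun i => by
    have := hMq (d + 1) i hd
    have h3 := hr i
    have e := er i
    have e' := er' i
    omega
  have hD1 : ∀ i, D * ((d + 1) * (v i).natAbs) ≤ M * D * q i := fun i =>
    (Nat.mul_le_mul_left D (hMq (d + 1) i hd)).trans (le_of_eq (by ring))
  have hD2 : ∀ i, D * (v' i).natAbs ≤ M * D * q i := fun i =>
    Nat.mul_le_mul (by calc D = 1 * D := (one_mul D).symm
                            _ ≤ M * D := Nat.mul_le_mul_right D (by omega)) (hv' i)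
  refine hZ (z2_of_LP hA hf hc hgd hg' (fun i => ?_) (fun i => ?_)
    (fun c hc k hk => free_of_LP hA hD hf hgd (fun i => ?_) hc k hk)
    (fun c _ hc k hk => free_of_LP hA hD hf hg' (fun i => ?_) hc k hk) ?_)
  · have := hMq (d + 1) i hd
    have h3 := hv' i
    have e' := er' i
    simp only [Pi.smul_apply, smul_eq_mul, Int.natAbs_mul, Int.natAbs_natCast]
    omega
  · have := hMq (d + 1) i hd
    have h3 := hr i
    have e := er i
    simp only [Pi.smul_apply, smul_eq_mul, Int.natAbs_mul, Int.natAbs_natCast]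
    omega
  · have := hD1 i
    have e' := er' i
    simp only [Pi.smul_apply, smul_eq_mul, Int.natAbs_mul, Int.natAbs_natCast]
    omega
  · have := hD2 i
    have h3 := hr i
    have e := er i
    omega
  · intro h
    apply hp
    intro a b
    have h4 := h a b
    simp only [Pi.smul_apply, smul_eq_mul, mul_assoc] at h4
    exact mul_left_cancel₀ (by positivity) h4

end Pool.Agent.V5helper79.PC
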