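import Pool.Agent.V5helper79.PC.Loc

/-!
# From local periods to a global period
-/

set_option autoImplicit false

namespace Pool.Agent.V5helper79.PC

open Function Set
open Pool.Agent.N47.SQ hiding Act par
open Pool.Agent.V5helper79.BX hiding par par1

variable {V : Type*} {Γ : SimpleGraph V} {n : ℕ} {G : Type*} [Group G] [MulAction G V]

theorem nk (k : ℕ) (x : ℤ) : ((k : ℤ) * x).natAbs = k * x.natAbs := by
  rw [Int.natAbs_mul, Int.natAbs_natCast]

/-- half-infinite tubes: local periods parallel to `s` are periods of half-infinite tubes -/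
theorem tube {M : ℕ} (hM : ∀ v : V, {g : G | g • v = v}.encard ≤ M)
    {f : (Fin n → ℤ) → V} {s : Fin n → ℤ} {q r : Fin n → ℕ}
    (hr : ∀ i, (2 * M + 3) * q i + 1 ≤ r i)
    (hH : ∀ p, ∃ (g : G) (k : ℕ), 0 < k ∧ (∀ i, k * (s i).natAbs ≤ q i) ∧
      LP f g ((k : ℤ) • s) p r)
    {p : Fin n → ℤ} {g : G} {k : ℕ} (hkq : ∀ i, k * (s i).natAbs ≤ q i)
    (hg : LP f g ((k : ℤ) • s) p r) (j : ℕ) :
    LP f g ((k : ℤ) • s) (p + (j : ℤ) • s) (fun _ => 1) := by
  induction j using Nat.strong_induction_on with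
  | _ j ih =>
  obtain ⟨g', k', hk', hkq', hg'⟩ := hH (p + (j : ℤ) • s)
  rcases Nat.lt_or_ge j ((M + 1) * k') with hj | hj
  · refine hg.mono fun i => ?_
    have h1 := hr i
    have h2 : j * (s i).natAbs ≤ (M + 1) * q i := by
      calc j * (s i).natAbs ≤ ((M + 1) * k') * (s i).natAbs := Nat.mul_le_mul_right _ hj.le
        _ = (M + 1) * (k' * (s i).natAbs) := by ring
        _ ≤ (M + 1) * q i := Nat.mul_le_mul_left _ (hkq' i)
    have e : (2 * M + 3) * q i = (M + 1) * q i + (M + 1) * q i + q i := by ring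
    simp only [Pi.add_apply, Pi.smul_apply, smul_eq_mul, add_sub_cancel_left, nk]
    omega
  have hmk : ∀ (m : ℕ) i, m ≤ M + 1 → m * (k' * (s i).natAbs) ≤ (M + 1) * q i := fun m i hm =>
    Nat.mul_le_mul hm (hkq' i)
  have hg'm : ∀ m ≤ M + 1, LP f (g' ^ m) ((m : ℤ) • ((k' : ℤ) • s)) (p + (j : ℤ) • s)
      (fun i => (M + 2) * q i + 1) := fun m hm => hg'.pow m fun i => by
    have h1 := hr i
    have h2 := hmk m i hm
    have e : (2 * M + 3) * q i = (M + 1) * q i + (M + 2) * q i := by ring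
    simp only [Pi.smul_apply, smul_eq_mul, nk]
    omega
  -- the point `m` steps back, inside of the tube
  have hback : ∀ m : ℕ, 0 < m → m ≤ M + 1 → ∀ y : Fin n → ℤ,
      (∀ i, (y i - (p + (j : ℤ) • s) i).natAbs ≤ 1) →
      g • f (y - (m : ℤ) • ((k' : ℤ) • s)) = f (y - (m : ℤ) • ((k' : ℤ) • s) + (k : ℤ) • s) := by
    intro m hm0 hm y hy
    have hmj : m * k' ≤ j := (Nat.mul_le_mul_right _ hm).trans hj
    have hpos : 0 < m * k' := Nat.mul_pos hm0 hk'
    refine ih (j - m * k') (by omega) _ fun i => ?_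
    have h1 := hy i
    simp only [Pi.add_apply, Pi.sub_apply, Pi.smul_apply, smul_eq_mul] at h1 ⊢
    rw [show y i - (m : ℤ) * ((k' : ℤ) * s i) - (p i + ((j - m * k' : ℕ) : ℤ) * s i) =
      y i - (p i + (j : ℤ) * s i) by push_cast [hmj]; ring]
    exact h1
  have hfwd : ∀ m ≤ M + 1, ∀ y : Fin n → ℤ,
      (∀ i, (y i - (p + (j : ℤ) • s) i).natAbs ≤ 1) →
      g' ^ m • f (y - (m : ℤ) • ((k' : ℤ) • s)) = f y ∧
      g' ^ m • f (y - (m : ℤ) • ((k' : ℤ) • s) + (k : ℤ) • s) = f (y + (k : ℤ) • s) := by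
    intro m hm y hy
    constructor
    · rw [hg'm m hm, sub_add_cancel]
      intro i
      have h1 := hy i
      have h2 := hmk m i hm
      have h3 : ((m : ℤ) * ((k' : ℤ) * s i)).natAbs = m * (k' * (s i).natAbs) := by rw [nk, nk]
      have e : (M + 2) * q i = (M + 1) * q i + q i := by ring
      simp only [Pi.add_apply, Pi.sub_apply, Pi.smul_apply, smul_eq_mul] at h1 ⊢
      omega
    · rw [hg'm m hm]
      · congr 1
        abel
      intro i
      have h1 := hy i
      have h2 := hmk m i hm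
      have h3 : ((m : ℤ) * ((k' : ℤ) * s i)).natAbs = m * (k' * (s i).natAbs) := by rw [nk, nk]
      have h4 := hkq i
      have h5 := nk k (s i)
      have e : (M + 2) * q i = (M + 1) * q i + q i := by ring
      simp only [Pi.add_apply, Pi.sub_apply, Pi.smul_apply, smul_eq_mul] at h1 ⊢
      omega
  have hy0 : ∀ i, ((p + (j : ℤ) • s) i - (p + (j : ℤ) • s) i).natAbs ≤ 1 := fun i => by simp
  obtain ⟨a, b, hab, hbM, he⟩ := pig hM (a := f (p + (j : ℤ) • s))
    (b := f (p + (j : ℤ) • s + (k : ℤ) • s))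
    (fun m => g' ^ (m + 1) * g * (g' ^ (m + 1))⁻¹) (fun m hm => by
      have h1 := hfwd (m + 1) (by omega) _ hy0
      have h2 := hback (m + 1) (by omega) (by omega) _ hy0
      rw [mul_smul, mul_smul, ← h1.2, ← h2]
      congr 2
      rw [inv_smul_eq_iff]
      exact h1.1.symm)
  obtain ⟨d, rfl⟩ := Nat.exists_eq_add_of_lt hab
  have hc : g * g' ^ (d + 1) = g' ^ (d + 1) * g := by
    have e : g' ^ (a + d + 1 + 1) = g' ^ (a + 1) * g' ^ (d + 1) := by rw [← pow_add]; congr 1; ring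
    simp only [e, mul_inv_rev, mul_assoc] at he
    have h2 := mul_left_cancel he
    have h3 : g = g' ^ (d + 1) * g * (g' ^ (d + 1))⁻¹ := by
      simp only [← mul_assoc] at h2
      have h4 := mul_right_cancel h2
      simpa [mul_assoc] using h4
    conv_lhs => rw [h3]
    simp [mul_assoc]
  intro y hy
  have h1 := hfwd (d + 1) (by omega) y hy
  have h2 := hback (d + 1) (by omega) (by omega) y hy
  rw [← h1.1, ← mul_smul, hc, mul_smul, h2, h1.2]

/-- powers on a tube -/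
theorem tube_pow {f : (Fin n → ℤ) → V} {s p : Fin n → ℤ} {g : G} {k : ℕ}
    (h : ∀ j : ℕ, LP f g ((k : ℤ) • s) (p + (j : ℤ) • s) (fun _ => 1)) (e : ℕ) :
    ∀ (j : ℕ) (y : Fin n → ℤ), (∀ i, (y i - p i).natAbs ≤ 1) →
      g ^ e • f (y + (j : ℤ) • s) = f (y + ((j + e * k : ℕ) : ℤ) • s) := by
  induction e with
  | zero => intro j y _; simp
  | succ e ih =>
    intro j y hy
    rw [pow_succ, mul_smul, h j (y + (j : ℤ) • s) (fun i => by
      have := hy i
      simp only [Pi.add_apply, Pi.smul_apply, smul_eq_mul]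
      rwa [add_sub_add_right_eq_sub])]
    have e1 : y + (j : ℤ) • s + (k : ℤ) • s = y + ((j + k : ℕ) : ℤ) • s := by
      push_cast
      module
    rw [e1, ih (j + k) y hy]
    congr 2
    push_cast
    ring

/-- neighbouring tubes have a common power -/
theorem tube_eq {M : ℕ} (hM : ∀ v : V, {g : G | g • v = v}.encard ≤ M) {f : (Fin n → ℤ) → V}
    {s p p' : Fin n → ℤ} {g g' : G} {k k' Q : ℕ}
    (h : ∀ j : ℕ, LP f g ((k : ℤ) • s) (p + (j : ℤ) • s) (fun _ => 1))
    (h' : ∀ j : ℕ, LP f g' ((k' : ℤ) • s) (p' + (j : ℤ) • s) (fun _ => 1))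
    (hpp : ∀ i, (p' i - p i).natAbs ≤ 1) (hk : k ∣ Q) (hk' : k' ∣ Q) :
    g ^ (Q / k * M.factorial) = g' ^ (Q / k' * M.factorial) := by
  obtain ⟨i, j, hij, hjM, he⟩ := pig hM (a := f p') (b := f p')
    (fun m => ((g' ^ (Q / k')) ^ m)⁻¹ * (g ^ (Q / k)) ^ m) (fun m _ => by
      rw [mul_smul, inv_smul_eq_iff, ← pow_mul, ← pow_mul]
      have h1 := tube_pow h (Q / k * m) 0 p' hpp
      have h2 := tube_pow h' (Q / k' * m) 0 p' (fun i => by simp)
      rw [Nat.cast_zero, zero_smul, add_zero, zero_add, Nat.mul_right_comm,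
        Nat.div_mul_cancel hk] at h1
      rw [Nat.cast_zero, zero_smul, add_zero, zero_add, Nat.mul_right_comm,
        Nat.div_mul_cancel hk'] at h2
      rw [h1, h2])
  obtain ⟨d, rfl⟩ := Nat.exists_eq_add_of_lt hij
  obtain ⟨A, hA⟩ : ∃ A, A = g ^ (Q / k) := ⟨_, rfl⟩
  obtain ⟨B, hB⟩ : ∃ B, B = g' ^ (Q / k') := ⟨_, rfl⟩
  simp only [← hA, ← hB] at he
  have hd : B ^ (d + 1) = A ^ (d + 1) := by
    have e1 : B ^ (i + d + 1) = B ^ (d + 1) * B ^ i := by rw [← pow_add]; congr 1; ring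
    have e2 : A ^ (i + d + 1) = A ^ (d + 1) * A ^ i := by rw [← pow_add]; congr 1; ring
    rw [e1, e2, mul_inv_rev] at he
    have h1 : (B ^ i)⁻¹ = (B ^ i)⁻¹ * (B ^ (d + 1))⁻¹ * A ^ (d + 1) := by
      have h3 := congrArg (fun x => x * (A ^ i)⁻¹) he
      simpa [mul_assoc] using h3
    have h2 := congrArg (fun x => B ^ i * x) h1
    simp only [mul_inv_cancel, mul_assoc, mul_inv_cancel_left] at h2
    exact (inv_mul_eq_one.1 h2.symm)
  obtain ⟨e, he'⟩ : (d + 1) ∣ M.factorial := Nat.dvd_factorial (by omega) (by omega)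
  rw [pow_mul, pow_mul, ← hA, ← hB, he', pow_mul, pow_mul, hd]

end Pool.Agent.V5helper79.PC
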